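import Pool.Agent.helper53.ORT.Spec

set_option autoImplicit false

namespace Pool.Agent.ORT

open Module Pool.Agent.GS

theorem DM_ch {F : Type} [Field F] (M : Matrix (Fin 2) (Fin 2) F) (T : F) (hd : M.det = 1)
    (ht : M.trace = T) : M * M = T • M - 1 := by
  rw [Matrix.det_fin_two] at hd
  rw [Matrix.trace_fin_two] at ht
  ext i j
  fin_cases i <;> fin_cases j <;>
    simp [Matrix.mul_apply, Fin.sum_univ_two, ← ht] <;>
    first
      | linear_combination (-1 : F) * hd
      | linear_combination (0 : F) * hd

theorem DM : DM_stmt := by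
  intro F _ hch
  have h2 : (2 : F) ≠ 0 := Ring.two_ne_zero hch
  refine ⟨?_, ?_⟩
  · intro M hd ht j hj
    -- an eigenvector for -1
    have hdet : (M + 1).det = 0 := by
      rw [Matrix.det_fin_two] at hd ⊢
      rw [Matrix.trace_fin_two] at ht
      simp only [Matrix.add_apply, Matrix.one_apply, Fin.isValue, if_true]
      simp
      linear_combination hd + ht
    obtain ⟨v, hv0, hv⟩ := Matrix.exists_mulVec_eq_zero_iff.2 hdet
    have hMv : M.mulVec v = -v := by
      rw [Matrix.add_mulVec, Matrix.one_mulVec] at hv
      exact eq_neg_of_add_eq_zero_left hv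
    have hpow : ∀ n : ℕ, (M ^ n).mulVec v = (-1 : F) ^ n • v := by
      intro n
      induction n with
      | zero => simp
      | succ n ih =>
        rw [pow_succ, ← Matrix.mulVec_mulVec, hMv, Matrix.mulVec_neg, ih, pow_succ]
        simp
    by_contra hodd
    have hodd' : Odd j := by
      rw [← Nat.not_even_iff_odd]
      intro he
      exact hodd he.two_dvd
    have h3 := hpow j
    rw [hj, Matrix.one_mulVec, hodd'.neg_one_pow] at h3
    have h4 : (2 : F) • v = 0 := by
      rw [two_smul]
      nth_rewrite 1 [h3]
      simp
    rcases smul_eq_zero.1 h4 with h5 | h5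
    · exact h2 h5
    · exact hv0 h5
  · intro hch3 M hd ht j hj
    have h3 : (3 : F) ≠ 0 := by
      intro h
      have h4 : ringChar F ∣ 3 := by
        rw [← ringChar.spec]
        exact_mod_cast h
      rcases (Nat.dvd_prime Nat.prime_three).1 h4 with h5 | h5
      · have := ringChar.Nat.cast_ringChar (R := F)
        rw [h5] at this
        exact one_ne_zero (α := F) (by exact_mod_cast this)
      · exact hch3 h5
    have hsq := DM_ch M (-1) hd ht
    have hcube : M ^ 3 = 1 := by
      have e : M ^ 3 = M * M * M := by rw [pow_succ, pow_two]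
      rw [e, hsq]
      have e2 : ((-1 : F) • M - 1) * M = (-1 : F) • (M * M) - M := by
        rw [sub_mul, Matrix.smul_mul, one_mul]
      rw [e2, hsq]
      simp
    have hM1 : M ≠ 1 := by
      intro h
      rw [h, Matrix.trace_one] at ht
      apply h3
      simp at ht
      linear_combination ht
    by_contra hnd
    have hmod : j % 3 = 1 ∨ j % 3 = 2 := by omega
    have hj' : M ^ (j % 3) = 1 := by
      have e : M ^ j = M ^ (3 * (j / 3) + j % 3) := by rw [Nat.div_add_mod]
      rw [pow_add, pow_mul, hcube, one_pow, one_mul] at e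
      rw [← e, hj]
    rcases hmod with h | h
    · rw [h, pow_one] at hj'
      exact hM1 hj'
    · rw [h] at hj'
      apply hM1
      have e : M ^ 3 = M ^ 2 * M := pow_succ M 2
      rw [hj', one_mul, hcube] at e
      exact e.symm

end Pool.Agent.ORT
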