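import Pool.Agent.helper53.ORT.Spec

set_option autoImplicit false

namespace Pool.Agent.ORT

open Module Pool.Agent.GS

open scoped BigOperators

noncomputable section

/-- a projection compatible with `y`, orthogonal to the subspace `S` -/
structure DSO1_PJ {F V : Type} [Field F] [AddCommGroup V] [Module F V]
    (B : LinearMap.BilinForm F V) (y : Equiv.Perm V) (P : V →ₗ[F] V) (S : Submodule F V) :
    Prop where
  fix : ∀ w, y w = w → y (P w) = P w
  orth : ∀ w, ∀ s ∈ S, B (P w) s = 0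
  sub : ∀ w, w - P w ∈ S

theorem DSO1_ex {F V : Type} [Field F] [AddCommGroup V] [Module F V]
    [FiniteDimensional F V] (B : LinearMap.BilinForm F V) (h2 : (2 : F) ≠ 0) (hB : Sym B)
    (y : Equiv.Perm V) (ha : ∀ u v, y (u + v) = y u + y v)
    (hspan : Submodule.span F {u | y u = u} = ⊤) (P : V →ₗ[F] V) (S : Submodule F V)
    (h : DSO1_PJ B y P S) (hd : finrank F S < finrank F V) :
    ∃ w, y w = w ∧ B (P w) (P w) ≠ 0 := by
  by_contra hcon
  push Not at hcon
  have hz : ∀ u w, y u = u → y w = w → B (P u) (P w) = 0 := by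
    intro u w hu hw
    have h1 := hcon (u + w) (by rw [ha, hu, hw])
    simp only [map_add, LinearMap.add_apply] at h1
    rw [hcon u hu, hcon w hw, hB.symm (P w) (P u)] at h1
    have h3 : 2 * B (P u) (P w) = 0 := by linear_combination h1
    rcases mul_eq_zero.1 h3 with h4 | h4
    · exact absurd h4 h2
    · exact h4
  have hcomp : ∀ u w, B (P u) (P w) = B (P u) w := by
    intro u w
    have h1 := h.orth u _ (h.sub w)
    rw [map_sub] at h1
    exact (sub_eq_zero.1 h1).symm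
  have hP : P = 0 := by
    apply LinearMap.ext_on hspan
    intro u hu
    have h1 : B (P u) = 0 := by
      apply LinearMap.ext_on hspan
      intro w hw
      rw [← hcomp u w]
      exact hz u w hu hw
    rw [LinearMap.zero_apply]
    apply hB.nd
    intro v
    rw [h1]
    rfl
  have htop : (⊤ : Submodule F V) ≤ S := by
    intro w _
    have h1 := h.sub w
    rw [hP, LinearMap.zero_apply, sub_zero] at h1
    exact h1
  have h3 := Submodule.finrank_mono htop
  rw [finrank_top] at h3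
  omega

theorem DSO1_step {F V : Type} [Field F] [AddCommGroup V] [Module F V]
    [FiniteDimensional F V] (B : LinearMap.BilinForm F V) (y : Equiv.Perm V) (ψ : F ≃+* F)
    (ha : ∀ u v, y (u + v) = y u + y v) (hs : ∀ (c : F) v, y (c • v) = ψ c • y v)
    (P : V →ₗ[F] V) (S : Submodule F V) (h : DSO1_PJ B y P S) (w : V) (hw : y w = w)
    (hN : B (P w) (P w) ≠ 0)
    (hval : ∀ u v, y u = u → y v = v → ψ (B u v / B (P w) (P w)) = B u v / B (P w) (P w)) :
    ∃ P' : V →ₗ[F] V, DSO1_PJ B y P' (S ⊔ Submodule.span F {P w}) ∧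
      finrank F ↥(S ⊔ Submodule.span F {P w}) ≤ finrank F S + 1 := by
  have hg : y (P w) = P w := h.fix w hw
  have hysub : ∀ u v, y (u - v) = y u - y v := by
    intro u v
    have h1 := ha (u - v) v
    rw [sub_add_cancel] at h1
    rw [h1, add_sub_cancel_right]
  let P' : V →ₗ[F] V := P - (((B (P w) (P w))⁻¹ • B.flip (P w)).comp P).smulRight (P w)
  have hP' : ∀ x, P' x = P x - (B (P x) (P w) / B (P w) (P w)) • P w := by
    intro x
    simp only [P', LinearMap.sub_apply, LinearMap.smulRight_apply, LinearMap.comp_apply,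
      LinearMap.smul_apply, smul_eq_mul]
    rw [div_eq_inv_mul]
    rfl
  refine ⟨P', ⟨?_, ?_, ?_⟩, ?_⟩
  · intro x hx
    rw [hP', hysub, hs, hval _ _ (h.fix x hx) hg, hg, h.fix x hx]
  · intro x s hs'
    obtain ⟨a, ha', b, hb', rfl⟩ := Submodule.mem_sup.1 hs'
    obtain ⟨c, rfl⟩ := Submodule.mem_span_singleton.1 hb'
    rw [hP']
    simp only [map_sub, map_add, LinearMap.sub_apply, map_smul, LinearMap.smul_apply, smul_eq_mul,
      h.orth x a ha', h.orth w a ha', mul_zero, sub_zero, zero_add]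
    field_simp
    ring
  · intro x
    rw [hP']
    have e : x - (P x - (B (P x) (P w) / B (P w) (P w)) • P w) =
        (x - P x) + (B (P x) (P w) / B (P w) (P w)) • P w := by abel
    rw [e]
    exact Submodule.add_mem_sup (h.sub x)
      (Submodule.smul_mem _ _ (Submodule.mem_span_singleton_self _))
  · have h4 := Submodule.finrank_add_le_finrank_add_finrank S (Submodule.span F {P w})
    have hne : P w ≠ 0 := by
      intro h0
      rw [h0, map_zero] at hN
      exact hN rfl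
    have h5 := finrank_span_singleton (K := F) hne
    omega

theorem DSO1_quad {K : Type} [Field K] [Finite K] (h2 : (2 : K) ≠ 0) (a b c : K) (ha : a ≠ 0)
    (hb : b ≠ 0) : ∃ x y : K, a * x ^ 2 + b * y ^ 2 + c = 0 := by
  classical
  have := Fintype.ofFinite K
  have hch : ringChar K ≠ 2 := by
    intro h
    apply h2
    have := ringChar.Nat.cast_ringChar (R := K)
    rw [h] at this
    exact_mod_cast this
  have hodd := FiniteField.odd_card_of_char_ne_two hch
  have hf : (Polynomial.C a * Polynomial.X ^ 2 + Polynomial.C c : Polynomial K).degree = 2 := by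
    rw [Polynomial.degree_add_eq_left_of_degree_lt]
    · rw [Polynomial.degree_C_mul_X_pow 2 ha]; rfl
    · rw [Polynomial.degree_C_mul_X_pow 2 ha]
      exact lt_of_le_of_lt Polynomial.degree_C_le (by norm_num)
  have hg : (Polynomial.C b * Polynomial.X ^ 2 : Polynomial K).degree = 2 := by
    rw [Polynomial.degree_C_mul_X_pow 2 hb]; rfl
  obtain ⟨x, y, hxy⟩ := FiniteField.exists_root_sum_quadratic hf hg hodd
  refine ⟨x, y, ?_⟩
  simp only [Polynomial.eval_add, Polynomial.eval_mul, Polynomial.eval_C, Polynomial.eval_pow,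
    Polynomial.eval_X] at hxy
  linear_combination hxy

theorem DSO1_quadfix {F : Type} [Field F] [Finite F] (h2 : (2 : F) ≠ 0) (ψ : F ≃+* F)
    (a b c : F) (ha : a ≠ 0) (hb : b ≠ 0) (ha' : ψ a = a) (hb' : ψ b = b) (hc' : ψ c = c) :
    ∃ x y : F, ψ x = x ∧ ψ y = y ∧ a * x ^ 2 + b * y ^ 2 + c = 0 := by
  let K : Subfield F := RingHom.eqLocusField (ψ : F →+* F) (RingHom.id F)
  have hmem : ∀ z : F, z ∈ K ↔ ψ z = z := fun z => Iff.rfl
  have h2' : (2 : K) ≠ 0 := by
    intro h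
    apply h2
    have h3 := congrArg K.subtype h
    rw [map_ofNat, map_zero] at h3
    exact h3
  obtain ⟨x, y, hxy⟩ := DSO1_quad (K := K) h2' ⟨a, (hmem a).2 ha'⟩ ⟨b, (hmem b).2 hb'⟩
    ⟨c, (hmem c).2 hc'⟩ (fun h => ha (by simpa using congrArg (fun z : K => (z : F)) h))
    (fun h => hb (by simpa using congrArg (fun z : K => (z : F)) h))
  refine ⟨x, y, (hmem _).1 x.2, (hmem _).1 y.2, ?_⟩
  have := congrArg (fun z : K => (z : F)) hxy
  simpa using this

/-- the first projection -/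
theorem DSO1_base {F V : Type} [Field F] [AddCommGroup V] [Module F V]
    [FiniteDimensional F V] (B : LinearMap.BilinForm F V) (hB : Sym B)
    (y : Equiv.Perm V) (ψ : F ≃+* F) (ha : ∀ u v, y (u + v) = y u + y v)
    (hs : ∀ (c : F) v, y (c • v) = ψ c • y v) (μ : F) (hμ : μ ≠ 0) (k : ℕ) (e f : Fin k → V)
    (hfix : ∀ i, y (e i) = e i ∧ y (f i) = f i)
    (hB0 : ∀ i j, B (e i) (e j) = 0 ∧ B (f i) (f j) = 0 ∧ B (e i) (f j) = if i = j then μ else 0)
    (hval : ∀ u v, y u = u → y v = v → ψ (μ⁻¹ * B u v) = μ⁻¹ * B u v) :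
    ∃ (P : V →ₗ[F] V) (S : Submodule F V), DSO1_PJ B y P S ∧ finrank F S ≤ 2 * k ∧
      ∀ i, e i ∈ S ∧ f i ∈ S := by
  have hy0 : y 0 = 0 := by
    have h1 : y ((0 : F) • (0 : V)) = ψ 0 • y 0 := hs 0 0
    rw [zero_smul, map_zero ψ, zero_smul] at h1
    exact h1
  have hysub : ∀ u v, y (u - v) = y u - y v := by
    intro u v
    have h1 := ha (u - v) v
    rw [sub_add_cancel] at h1
    rw [h1, add_sub_cancel_right]
  have hysum : ∀ (s : Fin k → V), y (∑ i, s i) = ∑ i, y (s i) := by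
    intro s
    have h1 : ∀ t : Finset (Fin k), y (∑ i ∈ t, s i) = ∑ i ∈ t, y (s i) := by
      intro t
      induction t using Finset.induction_on with
      | empty => rw [Finset.sum_empty, Finset.sum_empty, hy0]
      | insert a t ha' ih => rw [Finset.sum_insert ha', Finset.sum_insert ha', ha, ih]
    exact h1 Finset.univ
  let P : V →ₗ[F] V := LinearMap.id - ∑ i, (μ⁻¹ • B.flip (f i)).smulRight (e i) -
    ∑ i, (μ⁻¹ • B.flip (e i)).smulRight (f i)
  have hP : ∀ w, P w = w - ∑ i, (μ⁻¹ * B w (f i)) • e i - ∑ i, (μ⁻¹ * B w (e i)) • f i := by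
    intro w
    simp only [P]
    rw [LinearMap.sub_apply, LinearMap.sub_apply, LinearMap.sum_apply, LinearMap.sum_apply]
    rfl
  let S : Submodule F V := Submodule.span F (Set.range e) ⊔ Submodule.span F (Set.range f)
  have hfe : ∀ i j, B (f i) (e j) = if i = j then μ else 0 := by
    intro i j
    rw [hB.symm, (hB0 j i).2.2]
    by_cases h : i = j
    · rw [if_pos h, if_pos h.symm]
    · rw [if_neg h, if_neg (Ne.symm h)]
  have hPe : ∀ w j, B (P w) (e j) = 0 := by
    intro w j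
    rw [hP, map_sub, map_sub, LinearMap.sub_apply, LinearMap.sub_apply, map_sum,
      map_sum, LinearMap.sum_apply, LinearMap.sum_apply]
    have h1 : ∑ i, (B ((μ⁻¹ * B w (f i)) • e i)) (e j) = 0 := by
      apply Finset.sum_eq_zero
      intro i _
      rw [map_smul, LinearMap.smul_apply, (hB0 i j).1, smul_zero]
    have h2 : ∑ i, (B ((μ⁻¹ * B w (e i)) • f i)) (e j) = B w (e j) := by
      rw [Finset.sum_eq_single j]
      · rw [map_smul, LinearMap.smul_apply, hfe, if_pos rfl, smul_eq_mul]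
        field_simp
      · intro i _ hij
        rw [map_smul, LinearMap.smul_apply, hfe, if_neg hij, smul_zero]
      · intro h
        exact absurd (Finset.mem_univ j) h
    rw [h1, h2]
    ring
  have hPf : ∀ w j, B (P w) (f j) = 0 := by
    intro w j
    rw [hP, map_sub, map_sub, LinearMap.sub_apply, LinearMap.sub_apply, map_sum,
      map_sum, LinearMap.sum_apply, LinearMap.sum_apply]
    have h1 : ∑ i, (B ((μ⁻¹ * B w (f i)) • e i)) (f j) = B w (f j) := by
      rw [Finset.sum_eq_single j]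
      · rw [map_smul, LinearMap.smul_apply, (hB0 j j).2.2, if_pos rfl, smul_eq_mul]
        field_simp
      · intro i _ hij
        rw [map_smul, LinearMap.smul_apply, (hB0 i j).2.2, if_neg hij, smul_zero]
      · intro h
        exact absurd (Finset.mem_univ j) h
    have h2 : ∑ i, (B ((μ⁻¹ * B w (e i)) • f i)) (f j) = 0 := by
      apply Finset.sum_eq_zero
      intro i _
      rw [map_smul, LinearMap.smul_apply, (hB0 i j).2.1, smul_zero]
    rw [h1, h2]
    ring
  refine ⟨P, S, ⟨?_, ?_, ?_⟩, ?_, ?_⟩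
  · intro w hw
    rw [hP, hysub, hysub, hysum, hysum, hw]
    congr 1
    · congr 1
      apply Finset.sum_congr rfl
      intro i _
      rw [hs, hval w (f i) hw (hfix i).2, (hfix i).1]
    · apply Finset.sum_congr rfl
      intro i _
      rw [hs, hval w (e i) hw (hfix i).1, (hfix i).2]
  · intro w s hs'
    obtain ⟨a, ha', b, hb', rfl⟩ := Submodule.mem_sup.1 hs'
    have h1 : B (P w) a = 0 := by
      refine Submodule.span_induction (p := fun x _ => B (P w) x = 0) ?_ ?_ ?_ ?_ ha'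
      · rintro x ⟨i, rfl⟩; exact hPe w i
      · exact map_zero _
      · intro x z _ _ hx hz; rw [map_add, hx, hz, add_zero]
      · intro c x _ hx; rw [map_smul, hx, smul_zero]
    have h2 : B (P w) b = 0 := by
      refine Submodule.span_induction (p := fun x _ => B (P w) x = 0) ?_ ?_ ?_ ?_ hb'
      · rintro x ⟨i, rfl⟩; exact hPf w i
      · exact map_zero _
      · intro x z _ _ hx hz; rw [map_add, hx, hz, add_zero]
      · intro c x _ hx; rw [map_smul, hx, smul_zero]
    rw [map_add, h1, h2, add_zero]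
  · intro w
    rw [hP]
    have e1 : w - (w - ∑ i, (μ⁻¹ * B w (f i)) • e i - ∑ i, (μ⁻¹ * B w (e i)) • f i) =
        ∑ i, (μ⁻¹ * B w (f i)) • e i + ∑ i, (μ⁻¹ * B w (e i)) • f i := by abel
    rw [e1]
    apply Submodule.add_mem_sup
    · exact Submodule.sum_mem _ fun i _ => Submodule.smul_mem _ _ (Submodule.subset_span ⟨i, rfl⟩)
    · exact Submodule.sum_mem _ fun i _ => Submodule.smul_mem _ _ (Submodule.subset_span ⟨i, rfl⟩)
  · have h4 := Submodule.finrank_add_le_finrank_add_finrank (Submodule.span F (Set.range e))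
      (Submodule.span F (Set.range f))
    have h5 : finrank F (Submodule.span F (Set.range e)) ≤ k := by
      have := finrank_range_le_card (R := F) e
      rwa [Fintype.card_fin] at this
    have h6 : finrank F (Submodule.span F (Set.range f)) ≤ k := by
      have := finrank_range_le_card (R := F) f
      rwa [Fintype.card_fin] at this
    have h7 : finrank F S ≤ finrank F (Submodule.span F (Set.range e)) +
        finrank F (Submodule.span F (Set.range f)) := h4
    omega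
  · intro i
    exact ⟨Submodule.mem_sup_left (Submodule.subset_span ⟨i, rfl⟩),
      Submodule.mem_sup_right (Submodule.subset_span ⟨i, rfl⟩)⟩

theorem DSO1 (ds2 : GS.DS2_stmt) : DSO1_stmt := by
  intro F V _ _ _ _ _ B hch hB y ψ ν hy l hl hψ hψl hyl μ hμ hμν k e f hk hfix hB0
  have h2 : (2 : F) ≠ 0 := Ring.two_ne_zero hch
  have hspan : Submodule.span F {u | y u = u} = ⊤ := ds2 ψ l hl hψ hψl y hy.add hy.smul hyl
  have hψμ : ψ μ ≠ 0 := (map_ne_zero ψ).2 hμ
  have hν : ν ≠ 0 := hy.ne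
  have hval : ∀ u v, y u = u → y v = v → ψ (μ⁻¹ * B u v) = μ⁻¹ * B u v := by
    intro u v hu hv
    have h1 := hy.form u v
    rw [hu, hv] at h1
    have h3 : ψ (μ⁻¹ * B u v) = (ψ μ)⁻¹ * ψ (B u v) := by
      rw [map_mul, map_inv₀]
    have h4 : μ⁻¹ * B u v = (ν * ψ μ)⁻¹ * (ν * ψ (B u v)) := by
      rw [← h1, ← hμν]
    rw [h3, h4]
    field_simp
  have hval2 : ∀ g, y g = g → B g g ≠ 0 → ∀ u v, y u = u → y v = v →
      ψ (B u v / B g g) = B u v / B g g := by
    intro g hg hN u v hu hv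
    have e1 : B u v / B g g = (μ⁻¹ * B u v) / (μ⁻¹ * B g g) := by
      rw [mul_div_mul_left _ _ (inv_ne_zero hμ)]
    rw [e1, map_div₀, hval u v hu hv, hval g g hg hg]
  obtain ⟨P₀, S₀, hP₀, hd₀, hm₀⟩ := DSO1_base B hB y ψ hy.add hy.smul μ hμ k e f hfix hB0 hval
  obtain ⟨w₁, hw₁, hN₁⟩ := DSO1_ex B h2 hB y hy.add hspan P₀ S₀ hP₀ (by omega)
  obtain ⟨P₁, hP₁, hd₁⟩ := DSO1_step B y ψ hy.add hy.smul P₀ S₀ hP₀ w₁ hw₁ hN₁
    (hval2 _ (hP₀.fix w₁ hw₁) hN₁)
  obtain ⟨w₂, hw₂, hN₂⟩ := DSO1_ex B h2 hB y hy.add hspan P₁ _ hP₁ (by omega)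
  obtain ⟨P₂, hP₂, hd₂⟩ := DSO1_step B y ψ hy.add hy.smul P₁ _ hP₁ w₂ hw₂ hN₂
    (hval2 _ (hP₁.fix w₂ hw₂) hN₂)
  obtain ⟨w₃, hw₃, hN₃⟩ := DSO1_ex B h2 hB y hy.add hspan P₂ _ hP₂ (by omega)
  have f1 : y (P₀ w₁) = P₀ w₁ := hP₀.fix w₁ hw₁
  have f2 : y (P₁ w₂) = P₁ w₂ := hP₁.fix w₂ hw₂
  have f3 : y (P₂ w₃) = P₂ w₃ := hP₂.fix w₃ hw₃
  have o1 : ∀ s ∈ S₀, B (P₀ w₁) s = 0 := hP₀.orth w₁
  have o2 : ∀ s ∈ S₀, B (P₁ w₂) s = 0 := fun s hs => hP₁.orth w₂ s (Submodule.mem_sup_left hs)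
  have o3 : ∀ s ∈ S₀, B (P₂ w₃) s = 0 := fun s hs =>
    hP₂.orth w₃ s (Submodule.mem_sup_left (Submodule.mem_sup_left hs))
  have o21 : B (P₁ w₂) (P₀ w₁) = 0 :=
    hP₁.orth w₂ _ (Submodule.mem_sup_right (Submodule.mem_span_singleton_self _))
  have o31 : B (P₂ w₃) (P₀ w₁) = 0 :=
    hP₂.orth w₃ _ (Submodule.mem_sup_left (Submodule.mem_sup_right
      (Submodule.mem_span_singleton_self _)))
  have o32 : B (P₂ w₃) (P₁ w₂) = 0 :=
    hP₂.orth w₃ _ (Submodule.mem_sup_right (Submodule.mem_span_singleton_self _))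
  generalize P₀ w₁ = g₁ at *
  generalize P₁ w₂ = g₂ at *
  generalize P₂ w₃ = g₃ at *
  have o12 : B g₁ g₂ = 0 := by rw [hB.symm, o21]
  have o13 : B g₁ g₃ = 0 := by rw [hB.symm, o31]
  have o23 : B g₂ g₃ = 0 := by rw [hB.symm, o32]
  obtain ⟨a, b, ha, hb, hab⟩ := DSO1_quadfix h2 ψ (μ⁻¹ * B g₁ g₁) (μ⁻¹ * B g₂ g₂)
    (μ⁻¹ * B g₃ g₃) (mul_ne_zero (inv_ne_zero hμ) hN₁) (mul_ne_zero (inv_ne_zero hμ) hN₂)
    (hval _ _ f1 f1) (hval _ _ f2 f2) (hval _ _ f3 f3)
  have hab' : a ^ 2 * B g₁ g₁ + b ^ 2 * B g₂ g₂ + B g₃ g₃ = 0 := by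
    have : μ * (μ⁻¹ * B g₁ g₁ * a ^ 2 + μ⁻¹ * B g₂ g₂ * b ^ 2 + μ⁻¹ * B g₃ g₃) = 0 := by
      rw [hab, mul_zero]
    field_simp at this
    linear_combination this
  set E : V := a • g₁ + b • g₂ + g₃ with hE
  have hEfix : y E = E := by
    rw [hE, hy.add, hy.add, hy.smul, hy.smul, ha, hb, f1, f2, f3]
  have hEg3 : B E g₃ = B g₃ g₃ := by
    rw [hE]
    simp only [map_add, LinearMap.add_apply, map_smul, LinearMap.smul_apply, smul_eq_mul, o13, o23,
      mul_zero, zero_add]
  have hEE : B E E = 0 := by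
    rw [hE]
    simp only [map_add, LinearMap.add_apply, map_smul, LinearMap.smul_apply, smul_eq_mul, o12, o13,
      o21, o23, o31, o32, mul_zero, zero_add, add_zero]
    linear_combination hab'
  have hg3E : B g₃ E = B g₃ g₃ := by rw [hB.symm, hEg3]
  have hES : ∀ s ∈ S₀, B E s = 0 := by
    intro s hs
    rw [hE]
    simp only [map_add, LinearMap.add_apply, map_smul, LinearMap.smul_apply, smul_eq_mul, o1 s hs,
      o2 s hs, o3 s hs, mul_zero, add_zero]
  have hψ2 : ψ ((2 : F)⁻¹) = (2 : F)⁻¹ := by rw [map_inv₀, map_ofNat]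
  have hcf : ψ ((μ⁻¹ * B g₃ g₃)⁻¹) = (μ⁻¹ * B g₃ g₃)⁻¹ := by rw [map_inv₀, hval _ _ f3 f3]
  have hysub : ∀ u v, y (u - v) = y u - y v := by
    intro u v
    have h1 := hy.add (u - v) v
    rw [sub_add_cancel] at h1
    rw [h1, add_sub_cancel_right]
  refine ⟨E, (μ⁻¹ * B g₃ g₃)⁻¹ • (g₃ - (2 : F)⁻¹ • E), hEfix, ?_, hEE, ?_, ?_, ?_⟩
  · rw [hy.smul, hcf, hysub, hy.smul, hψ2, hEfix, f3]
  · simp only [map_sub, LinearMap.sub_apply, map_smul, LinearMap.smul_apply, smul_eq_mul, hEE,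
      hEg3, hg3E, mul_zero, sub_zero]
    field_simp
    ring
  · simp only [map_sub, map_smul, smul_eq_mul, hEE, hEg3, mul_zero, sub_zero]
    field_simp
  · intro i
    have h5 := hm₀ i
    refine ⟨hES _ h5.1, hES _ h5.2, ?_, ?_⟩
    · simp only [map_sub, LinearMap.sub_apply, map_smul, LinearMap.smul_apply, smul_eq_mul,
        hES _ h5.1, o3 _ h5.1, mul_zero, sub_zero]
    · simp only [map_sub, LinearMap.sub_apply, map_smul, LinearMap.smul_apply, smul_eq_mul,
        hES _ h5.2, o3 _ h5.2, mul_zero, sub_zero]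

end

end Pool.Agent.ORT
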