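import Pool.Agent.helper53.ORT.Spec

set_option autoImplicit false

namespace Pool.Agent.ORT

open Module Pool.Agent.GS

theorem TRC (ev : EV0_stmt) (h1 : GS.H1_stmt) : TRC_stmt := by
  intro F _ _ hch r hr κ hκ
  rcases hr with rfl | ⟨hr, hr2, hd⟩
  · exact ev hch κ hκ
  · obtain ⟨σ, hσ, hsq⟩ := h1 (F := F) r hr hr2 hd κ hκ
    refine ⟨2 + σ, ?_, ?_, ?_⟩
    · intro h
      apply hσ.ne
      linear_combination h
    · have e : (2 + σ - 2) * κ = σ * κ := by ring
      rw [e]
      exact hsq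
    · intro M hM hT j hj
      exact hσ.ord M hM hT j 1 (by rw [hj, one_smul])

end Pool.Agent.ORT
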